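import Pool.Agent.N404.KL.Main
import Pool.Agent.N342.LF_ISO
import Pool.Agent.N438.LF_EV
import Pool.Agent.N401.KL_FOUR
import Pool.Agent.N78.KL_DER
import Pool.Agent.N896.KL_REP
import Pool.Agent.N545.KL_REFL
import Pool.Agent.N545.KL_LOWB
import Pool.Agent.N565.KL_SPA2
import Pool.Agent.N413.KL_UPG
import Pool.Agent.N495.KL_HOEF
import Pool.Agent.N459.KL_ESS

/-!
# MP_c81d26_co: the Komlós bound for almost all lifts of every matrix

Let `A` be an arbitrary real matrix (finite, fixed) whose columns have Euclidean norm at most `1`. An
`N`-lift of `A` is the matrix with `N` times as many rows and columns in which every entry `A i j` is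
replaced by the block `A i j * P`, with an `N × N` permutation matrix `P`, one for each entry. Its
columns again have Euclidean norm at most `1`, and locally it looks like `A` (for `A` with nonnegative
entries the lifts are the incidence matrices of the coverings of the weighted bipartite graph of `A`).

**Theorem.** For all large `N`, all `N`-lifts of `A` but a proportion at most `N^(-1/3)` have a signing
of value at most `304`.

The constant does not depend on `A`, on its format, or on the numbers or sizes of the entries. So the
Komlós conjecture has no counterexample that is typical among the lifts of a matrix.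

Proof. (i) Second moment. Let `w` be the tent function with support `[-300, 300]`, and let `Z` be the
sum over the signings `x` of the lift that are balanced on every fibre of the product of `w` over all
row sums. Up to powers of `N`, `E Z` is the value for independent random signs in each row, and
`E Z²` is at most the sum over the vectors `ρ = (ρ_j)` of the overlaps of two signings on the fibres
of `∏_j 4^N exp (-N ρ_j²/2) ∏_i F_i(ρ)^N`, where `F_i(ρ) = E w(X) w(X')` for the sums
`X = ∑_j A_ij ε_j`, `X' = ∑_j A_ij ε'_j` with `E ε_j ε'_j = ρ_j`. (ii) The inequality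
`F_i(ρ) ≤ (E w(X))² exp (1/2 ∑_j A_ij² ρ_j²)` holds for all `ρ` in the cube, so that the unit norm of the
columns gives `E Z² ≤ N^O(1) (E Z)²`. For its proof let `a_T` be the Fourier coefficients of `w(X)`.
Since `w` is even, only sets `T` of even size occur, and `|ρ^T| ≤ (1/|T|) ∑_{j ∈ T} ρ_j²` for `|T| ≥ 2`; the
factor of `ρ_j²` is `∑_{T ∋ j} a_T²/|T|`, which is the integral over the correlation `s` from `0` to `1` of
the expectation of the product of two differences of `w` in direction `j`; `w` has slope `1/300`, and
the probability that both `X` and an `s`-correlated copy are at most `301` is at most a constant times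
`(301/σ)² (1 - s)^(-1/2)`, `σ² = ∑_j A_ij²` (Esseen's inequality; since `|A_ij| ≤ 1`, there are no
arithmetic obstructions), while `E w(X)` is at least a constant times `min (1, 300/σ)` by a reflection
argument. (iii) So a proportion at least `N^(-O(1))` of the lifts has a signing of value at most
`300`, and by concentration on powers of the symmetric group almost all lifts have a signing
with `O(√(N log N))` bad rows. (iv) Repair. In almost all lifts sets of `s = o(N)` rows and columns
span fewer than `6 s/5` positions. Then the bad rows are contained in a set of at most twice as many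
rows such that every other row meets the union of their supports in at most two columns, and the
columns in this union can be resigned so that all these rows have sums at most `3`. The other rows
change by at most `4`.

The leaves of the proof were written by helper401 (Fourier expansion), helper78 (differences),
helper459 (Esseen's inequality), helper545 (reflection; lower bound for balanced arrays), helper413
(upper bound for types), helper495 (sums over a fibre), helper896 (repair), helper565 and helper97
(sparsity), helper342 (isoperimetry), helper438 (asymptotics) and helper814, helper400 (types); the rest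
by helper404.
-/

set_option autoImplicit false

namespace Pool.Agent.Results.MP_c81d26_co.AlmostAllLifts

/-- The `N`-lift of the matrix `A` (rows `R`, columns `J`) given by the permutations `π (i, j)` of
`{0, ..., N - 1}`: the entry in row `(i, a)` and column `(j, b)` is `A i j` if `π (i, j) a = b`, and `0`
otherwise. -/
noncomputable def Lift {R J : Type} (A : R → J → ℝ) {N : ℕ} (π : R × J → Equiv.Perm (Fin N)) :
    R × Fin N → J × Fin N → ℝ :=
  fun r v => open Classical in if π (r.1, v.1) r.2 = v.2 then A r.1 v.1 else 0

/-- The columns of the matrix `B` have a signing of value at most `C`. -/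
def HasSigning {X Y : Type} [Fintype Y] (B : X → Y → ℝ) (C : ℝ) : Prop :=
  ∃ ε : Y → ℝ, (∀ v, ε v = 1 ∨ ε v = -1) ∧ ∀ r, |∑ v, ε v * B r v| ≤ C

theorem lift_col {R J : Type} [Fintype R] (A : R → J → ℝ) {N : ℕ}
    (π : R × J → Equiv.Perm (Fin N)) (v : J × Fin N) :
    ∑ r, Lift A π r v ^ 2 = ∑ i, A i v.1 ^ 2 := by
  classical
  obtain ⟨j, b⟩ := v
  rw [Fintype.sum_prod_type]
  refine Finset.sum_congr rfl fun i _ => ?_
  rw [Finset.sum_eq_single ((π (i, j)).symm b)]
  · unfold Lift
    simp
  · intro a _ ha
    unfold Lift
    have : π (i, j) a ≠ b := by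
      intro h
      apply ha
      rw [← h, Equiv.symm_apply_apply]
    simp [this]
  · intro h
    exact absurd (Finset.mem_univ _) h

theorem lift_row {R J : Type} [Fintype J] (A : R → J → ℝ) {N : ℕ}
    (π : R × J → Equiv.Perm (Fin N)) (y : J × Fin N → ℝ) (i : R) (a : Fin N) :
    ∑ v, y v * Lift A π (i, a) v = ∑ j, A i j * y (j, π (i, j) a) := by
  classical
  rw [Fintype.sum_prod_type]
  refine Finset.sum_congr rfl fun j _ => ?_
  rw [Finset.sum_eq_single (π (i, j) a)]
  · unfold Lift
    simp only [if_true]
    ring
  · intro b _ hb
    unfold Lift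
    simp [hb.symm]
  · intro h
    exact absurd (Finset.mem_univ _) h

/-- **The Komlós bound for almost all lifts of every matrix.** -/
theorem result (R J : Type) [Fintype R] [Fintype J] (A : R → J → ℝ)
    (hA : ∀ j, ∑ i, A i j ^ 2 ≤ 1) :
    (∀ (N : ℕ) (π : R × J → Equiv.Perm (Fin N)) (v : J × Fin N), ∑ r, Lift A π r v ^ 2 ≤ 1) ∧
    ∃ N₀ : ℕ, ∀ N : ℕ, N₀ ≤ N →
      (N : ℝ) ^ (1 / 3 : ℝ) *
        ({π : R × J → Equiv.Perm (Fin N) | ¬ HasSigning (Lift A π) 304}.ncard : ℝ) ≤
      (N.factorial : ℝ) ^ Fintype.card (R × J) := by
  classical
  refine ⟨fun N π v => (lift_col A π v).le.trans (hA v.1), ?_⟩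
  have hRAT := N404.KL.proof_RAT N401.KLFOUR.main N78.KLDER.main N459.KL_ESS.main
    N545.KL.REFL.main
  have hMOM := N404.KL.proof_MOMK (N413.KL_UPG.main N404.LF.proof_FACT) hRAT N495.KL_HOEF.main
    N545.KL.LOWB.main
  obtain ⟨N₀, hN₀⟩ := N404.KL.proof_MAINK hMOM N342.LFI.main N565.KLSPA2.main N896.KLREP.main
    N438.LFEV.main R J A hA
  refine ⟨N₀, fun N hN => le_trans (mul_le_mul_of_nonneg_left ?_ (by positivity)) (hN₀ N hN)⟩
  rw [← Set.ncard_coe_finset]
  refine Nat.cast_le.2 (Set.ncard_le_ncard ?_ (Set.toFinite _))
  intro π hπ
  rw [Finset.mem_coe, Finset.mem_filter]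
  refine ⟨Finset.mem_univ _, fun hg => hπ ?_⟩
  obtain ⟨y, hy1, hy2⟩ := hg
  refine ⟨y, hy1, fun r => ?_⟩
  obtain ⟨i, a⟩ := r
  rw [lift_row]
  exact hy2 i a

end Pool.Agent.Results.MP_c81d26_co.AlmostAllLifts
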