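import Pool.Agent.N421.KD.Cor
import Pool.Agent.R959.LD3.Cor3

set_option autoImplicit false

/-!
# The Komlós problem: a dimension-free bound, logarithmic in the number of nonzero entries

There is an absolute constant `C` such that for all `d`, `n`, `D ≥ 1`, all vectors
`v_1, …, v_n` in the Euclidean unit ball of `ℝ^d` and every starting point `x⁰ ∈ [-1,1]^n` there
are signs `x_j` (equal to `x⁰_j` where that is a sign) for which the `k`-th coordinate of
`∑ (x_j - x⁰_j) v_j` is at most `C (1 + log D) (1 + s_k / D)` in absolute value, where `s_k` is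
the number of the `v_j` with a nonzero `k`-th coordinate and `|x⁰_j| < 1`.

In particular (`x⁰ = 0`), if in every coordinate at most `D` of the vectors are nonzero, then some
signing has value at most `2 C (1 + log D)`, whatever `d` and `n` and the numbers of nonzero
entries of the vectors.

Proof. Phases: the new fractional signing is, in the coordinates of the old one, the minimiser over
the cube of `|z - g|^2 / 2` plus a barrier potential of all the coordinate sums, `g` Gaussian. The
barrier is soft enough that every single element makes progress with constant probability, since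
the mean stiffness of every coordinate is bounded, however long it is. The influence of far away
data decays exponentially at scale `√D`, while the number of unfrozen elements is concentrated up
to a probability exponentially small in itself, so that the local lemma allows to reduce it from
`D` to `D^(0.61)` in `O (log D)` phases, each with an error `O(1)`. Then nearly frozen elements are
rounded at random and the argument is repeated with `D^(0.87)` instead of `D`.
-/

open Finset

namespace Pool.Agent.Results.MP_c81d26_co.LogOfSupport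

theorem result : ∃ C : ℝ, 0 < C ∧
    ∀ (d n D : ℕ) (v : Fin n → EuclideanSpace ℝ (Fin d)) (x₀ : Fin n → ℝ), 1 ≤ D →
      (∀ j, ‖v j‖ ≤ 1) → (∀ j, |x₀ j| ≤ 1) →
      ∃ x : Fin n → ℝ, (∀ j, x j = 1 ∨ x j = -1) ∧ (∀ j, |x₀ j| = 1 → x j = x₀ j) ∧
        ∀ k, |(∑ j, (x j - x₀ j) • v j) k| ≤
          C * (1 + Real.log D) * (1 + ({j | v j k ≠ 0 ∧ |x₀ j| < 1}.ncard : ℝ) / D) := by
  classical
  obtain ⟨C1, hC1, h1⟩ := Pool.Agent.N421.KD.cut
  have hcol : ∀ (d n : ℕ) (v : Fin n → EuclideanSpace ℝ (Fin d)), (∀ j, ‖v j‖ ≤ 1) →
      ∀ j, ∑ k, (v j k) ^ 2 ≤ 1 := by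
    intro d n v hv j
    have e1 := hv j
    rw [EuclideanSpace.norm_eq, Real.sqrt_le_one] at e1
    simpa [Real.norm_eq_abs, sq_abs] using e1
  have happ : ∀ (d n : ℕ) (v : Fin n → EuclideanSpace ℝ (Fin d)) (y : Fin n → ℝ) (k : Fin d),
      (∑ j, y j • v j) k = ∑ j, v j k * y j := by
    intro d n v y k
    simp [Finset.sum_apply, mul_comm]
  refine ⟨C1, hC1, ?_⟩
  intro d n D v x₀ hD hv hx₀
  obtain ⟨x, x1, x2, x3⟩ := h1 D hD (Fin n) (Fin d) (fun k j => v j k) x₀ (hcol d n v hv) hx₀
  refine ⟨x, x1, x2, fun k => ?_⟩
  rw [happ]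
  have e1 := x3 k
  have e2 : ((Pool.Agent.R959.LD2.supp (fun j => v j k * (1 - |x₀ j|))).card : ℝ) =
      ({j | v j k ≠ 0 ∧ |x₀ j| < 1}.ncard : ℝ) := by
    rw [Pool.Agent.R959.LD3.supp_card]
    congr 2
    ext j
    simp only [Set.mem_ofPred_eq]
    constructor
    · intro h
      refine ⟨left_ne_zero_of_mul h, lt_of_le_of_ne (hx₀ j) fun h3 => ?_⟩
      exact (right_ne_zero_of_mul h) (by rw [h3]; ring)
    · rintro ⟨h3, h4⟩
      exact mul_ne_zero h3 (by linarith)
  rw [e2] at e1
  exact e1

end Pool.Agent.Results.MP_c81d26_co.LogOfSupport
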