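import Pool.Agent.N421.KD.Orders
import Pool.Agent.R959.LD3.Cor3

set_option autoImplicit false

/-!
# Signs with bounded prefix sums, every coordinate having its own order of the vectors

There is an absolute constant `C` such that for all `d`, `n`, `D ≥ 1`, all vectors
`v_1, …, v_n` in the Euclidean unit ball of `ℝ^d`, all orders of the vectors, one for every
coordinate `k` (`σ k j` is the position of `v_j` in it), and every starting point
`x⁰ ∈ [-1,1]^n` there are signs `x_j` (equal to `x⁰_j` where that is a sign) for which in every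
coordinate `k` all the sums of `(x_j - x⁰_j) v_j` over the first `m` vectors in the order of the
coordinate `k` are at most `C (1 + log D)^(5/2) (1 + s / D)` in absolute value, where `s` is the
number of those of the first `m` vectors `v_j` with a nonzero `k`-th coordinate and
`|x⁰_j| < 1`.

In particular, if every coordinate is nonzero in at most `D` of the vectors, the bound is
`2 C (1 + log D)^(5/2)`, whatever `d` and `n` are and whatever the orders are.

Proof: dyadic blocks of the ranks in the support of every coordinate are added as new coordinates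
to the dimension-free Komlós bound `Pool.Agent.N421.KD.main`.
-/

open Finset

namespace Pool.Agent.Results.MP_c81d26_co.OrderedSums

open Pool.Agent.R959.LD2

theorem result : ∃ C : ℝ, 0 < C ∧
    ∀ (d n D : ℕ) (v : Fin n → EuclideanSpace ℝ (Fin d)) (σ : Fin d → Equiv.Perm (Fin n))
      (x₀ : Fin n → ℝ), 1 ≤ D → (∀ j, ‖v j‖ ≤ 1) → (∀ j, |x₀ j| ≤ 1) →
      ∃ x : Fin n → ℝ, (∀ j, x j = 1 ∨ x j = -1) ∧ (∀ j, |x₀ j| = 1 → x j = x₀ j) ∧
        ∀ (k : Fin d) (m : ℕ),
          |∑ j ∈ univ.filter (fun j => (σ k j : ℕ) < m), (x j - x₀ j) * v j k| ≤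
            C * (1 + Real.log D) ^ (5 / 2 : ℝ) *
              (1 + ({j | v j k ≠ 0 ∧ |x₀ j| < 1 ∧ (σ k j : ℕ) < m}.ncard : ℝ) / D) := by
  classical
  obtain ⟨C1, hC1, h1⟩ := Pool.Agent.N421.KD.orders
  refine ⟨C1, hC1, ?_⟩
  intro d n D v σ x₀ hD hv hx₀
  have hcol : ∀ j, ∑ k, (v j k) ^ 2 ≤ 1 := by
    intro j
    have e1 := hv j
    rw [EuclideanSpace.norm_eq, Real.sqrt_le_one] at e1
    simpa [Real.norm_eq_abs, sq_abs] using e1
  obtain ⟨x, x1, x2, x3⟩ := h1 D hD (Fin n) (Fin d) (fun k j => v j k) x₀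
    (fun k j => (σ k j : ℕ)) hcol hx₀ (fun k i j hij => (σ k).injective (Fin.ext hij))
  refine ⟨x, x1, x2, fun k m => ?_⟩
  have e1 := x3 k m
  have e2 : (((supp (fun j => v j k * (1 - |x₀ j|))).filter
      (fun j => (σ k j : ℕ) < m)).card : ℝ) =
      ({j | v j k ≠ 0 ∧ |x₀ j| < 1 ∧ (σ k j : ℕ) < m}.ncard : ℝ) := by
    rw [← Set.ncard_coe_finset]
    congr 2
    ext j
    rw [Finset.mem_coe, Finset.mem_filter, mem_supp]
    constructor
    · rintro ⟨h4, h5⟩
      refine ⟨left_ne_zero_of_mul h4, lt_of_le_of_ne (hx₀ j) fun h6 => ?_, h5⟩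
      exact (right_ne_zero_of_mul h4) (by rw [h6]; ring)
    · rintro ⟨h4, h5, h6⟩
      exact ⟨mul_ne_zero h4 (by linarith), h6⟩
  rw [e2] at e1
  have e3 : ∑ j ∈ univ.filter (fun j => (σ k j : ℕ) < m), (x j - x₀ j) * v j k =
      ∑ j ∈ univ.filter (fun j => (σ k j : ℕ) < m), v j k * (x j - x₀ j) :=
    Finset.sum_congr rfl fun j _ => mul_comm _ _
  rw [e3]
  exact e1

end Pool.Agent.Results.MP_c81d26_co.OrderedSums
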