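import Pool.Agent.N421.KD.Steinitz

set_option autoImplicit false

/-!
# A Steinitz theorem in the sup norm for sparse vectors, independent of the dimension

There is an absolute constant `C` such that for all `d`, `n`, `D ≥ 1`, all vectors
`v_1, …, v_n` in the Euclidean unit ball of `ℝ^d` with sum zero can be ordered so that the
`k`-th coordinates of all the partial sums are at most `C (1 + log D)^(5/2) (1 + s_k / D)` in
absolute value, where `s_k` is the number of the `v_j` with a nonzero `k`-th coordinate. So if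
every coordinate is nonzero in at most `D` of the vectors, the partial sums have sup norm at most
`2 C (1 + log D)^(5/2)`, whatever `d` and `n` are.

Proof: signs with bounded prefix sums in a given order (`Pool.Agent.N421.KD.orders`), and
Chobanyan's argument.
-/

open Finset

namespace Pool.Agent.Results.MP_c81d26_co.SparseSteinitz

open Pool.Agent.R959.LD2

theorem result : ∃ C : ℝ, 0 < C ∧
    ∀ (d n D : ℕ) (v : Fin n → EuclideanSpace ℝ (Fin d)), 1 ≤ D → (∀ j, ‖v j‖ ≤ 1) →
      (∑ j, v j) = 0 → ∃ τ : Equiv.Perm (Fin n), ∀ (k : Fin d) (m : ℕ),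
        |(∑ i ∈ univ.filter (fun i : Fin n => (i : ℕ) < m), v (τ i)) k| ≤
          C * (1 + Real.log D) ^ (5 / 2 : ℝ) * (1 + ({j | v j k ≠ 0}.ncard : ℝ) / D) := by
  classical
  obtain ⟨C2, hC2, h2⟩ := Pool.Agent.N421.KD.steinitz
  refine ⟨C2, hC2, ?_⟩
  intro d n D v hD hv h0
  have hcol : ∀ j, ∑ k, (v j k) ^ 2 ≤ 1 := by
    intro j
    have e1 := hv j
    rw [EuclideanSpace.norm_eq, Real.sqrt_le_one] at e1
    simpa [Real.norm_eq_abs, sq_abs] using e1
  obtain ⟨τ, hτ⟩ := h2 D hD n (Fin d) (fun k j => v j k) hcol (fun k => by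
    have := congrArg (fun w : EuclideanSpace ℝ (Fin d) => w k) h0
    simpa using this)
  refine ⟨τ, fun k m => ?_⟩
  have e1 := hτ k m
  have e2 : ((supp (fun j => v j k)).card : ℝ) = ({j | v j k ≠ 0}.ncard : ℝ) := by
    rw [← Set.ncard_coe_finset]
    congr 2
    ext j
    rw [Finset.mem_coe, mem_supp]
    rfl
  rw [e2] at e1
  have e3 : (∑ i ∈ univ.filter (fun i : Fin n => (i : ℕ) < m), v (τ i)) k =
      ∑ i ∈ univ.filter (fun i : Fin n => (i : ℕ) < m), v (τ i) k := by
    simp
  rw [e3]
  exact e1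

end Pool.Agent.Results.MP_c81d26_co.SparseSteinitz
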